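import Pool.Agent.helper59.ZB.SpecH

/-!
# MP_baa4d7_al, project ZB, block H in the T-form, row HCMT: the canonical character is fixed by the automorphism
-/

set_option autoImplicit false

namespace Pool.Agent.GB

open Pool.Agent.helper58.DC Pool.Agent.DI Pool.Agent.GR Pool.Agent.OB Pool.Agent.DR Pool.Agent.FI Pool.Agent.FI3 Pool.Agent.FI4 Pool.Agent.LE Pool.Agent.BR

/-- `g` is a power of `g ^ m` for `m` prime to the order of the group -/
theorem HCMT_cop {G : Type} [Group G] [Finite G] {m : ℕ} (hm : m.Coprime (Nat.card G)) (g : G) : ∃ k : ℕ, (g ^ m) ^ k = g := by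
  have h1 : m.Coprime (orderOf g) := Nat.Coprime.coprime_dvd_right (orderOf_dvd_natCard g) hm
  obtain ⟨k, hk⟩ := exists_pow_eq_self_of_coprime (x := g) h1
  exact ⟨k, hk⟩

/-- decomposition -/
theorem HCMT_dec {G : Type} [Group G] [Finite G] {p : ℕ} (hp : p.Prime) (g : G) :
    ∃ i j : ℕ, PEl p (g ^ i) ∧ PReg p (g ^ j) ∧ g ^ i * g ^ j = g := by
  set n := orderOf g with hn
  have hn0 : n ≠ 0 := (orderOf_pos g).ne'
  set a := p ^ n.factorization p with ha
  set b := n / p ^ n.factorization p with hb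
  have hab : a * b = n := Nat.ordProj_mul_ordCompl_eq_self n p
  have hpb : p.Coprime b := Nat.coprime_ordCompl hp hn0
  have hco : a.Coprime b := hpb.pow_left _
  obtain ⟨e, he1, he2⟩ := Nat.chineseRemainder hco 1 0
  obtain ⟨f, hf1, hf2⟩ := Nat.chineseRemainder hco 0 1
  refine ⟨e, f, ⟨n.factorization p, ?_⟩, ?_, ?_⟩
  · have h0 : n ∣ e * a := by
      calc n = b * a := by rw [mul_comm]; exact hab.symm
        _ ∣ e * a := Nat.mul_dvd_mul_right ((Nat.modEq_zero_iff_dvd).mp he2) _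
    rw [← pow_mul, ← orderOf_dvd_iff_pow_eq_one]
    exact h0
  · intro h
    have h0 : n ∣ f * b := by
      calc n = a * b := hab.symm
        _ ∣ f * b := Nat.mul_dvd_mul_right ((Nat.modEq_zero_iff_dvd).mp hf1) _
    have h1 : orderOf (g ^ f) ∣ b := by
      rw [orderOf_dvd_iff_pow_eq_one, ← pow_mul, ← orderOf_dvd_iff_pow_eq_one]
      exact h0
    have h2 : p ∣ b := h.trans h1
    exact hp.one_lt.ne' (Nat.Coprime.eq_one_of_dvd hpb h2)
  · rw [← pow_add]
    have h3 : e + f ≡ 1 [MOD n] := by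
      rw [← hab]
      refine (Nat.modEq_and_modEq_iff_modEq_mul hco).mp ⟨?_, ?_⟩
      · simpa using he1.add hf1
      · simpa using he2.add hf2
    have h4 := pow_eq_pow_iff_modEq.2 h3
    rw [h4, pow_one]

/-- membership in the centralizer -/
theorem HCMT_mem {G : Type} [Group G] (L : Subgroup G) (x y : G) (h : y ∈ L) (h2 : x * y = y * x) : y ∈ Cz L x :=
  Subgroup.mem_inf.2 ⟨h, Subgroup.mem_centralizer_singleton_iff.2 h2.symm⟩

theorem HCMT (hHDT : HDT_stmt) (hVN1 : VN1_stmt) (hQCE : QCE_stmt) (hB2 : B2_stmt) : HCMT_stmt := by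
  intro p M hS G _ _ D x θ χ hR θ₁ hθ₁ hu m hm g
  obtain ⟨w0, hw0⟩ := hHDT p M hS G D x θ χ hR
  have hle : cz D ≤ cz (D ⊓ cz D) := Subgroup.centralizer_le inf_le_left
  have hVN := hVN1 p M hS G (cz D) (D ⊓ cz D) w0 hle θ hR.th hw0 θ₁ hθ₁
  obtain ⟨hpos, -, -, hout, -⟩ := (hB2 G (cz D)).2 θ₁ hθ₁.1
  obtain ⟨k, hk⟩ := HCMT_cop hm.cop g
  by_cases hg : g ∈ cz D
  · obtain ⟨i, j, hi, hj, hij⟩ := HCMT_dec hS.pr g
    set u := g ^ i with hudef
    set v := g ^ j with hvdef
    have huv : u * v = v * u := by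
      rw [hudef, hvdef, ← pow_add, ← pow_add, add_comm]
    have hcom : Commute u v := huv
    have huC : u ∈ cz D := (cz D).pow_mem hg i
    have hvC : v ∈ cz D := (cz D).pow_mem hg j
    have hvm : v ^ m = v := by
      have h1 : m ≡ 1 [MOD orderOf v] := hm.reg _ (orderOf_dvd_natCard v) hj
      have h2 := pow_eq_pow_iff_modEq.2 h1
      rw [h2, pow_one]
    have hgm : g ^ m = u ^ m * v := by
      rw [← hij, hcom.mul_pow, hvm]
    obtain ⟨l, hl⟩ := HCMT_cop hm.cop u
    have hum : PEl p (u ^ m) := by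
      obtain ⟨s, hs⟩ := hi
      refine ⟨s, ?_⟩
      rw [← pow_mul, mul_comm, pow_mul, hs, one_pow]
    have humv : u ^ m * v = v * u ^ m := (hcom.pow_left m).eq
    by_cases hD : u ∈ D
    · have hQ := (hQCE G (cz D))
      have hcen : ∀ w ∈ D, Cen (cz D) w := by
        intro w hw c hc
        rw [Subgroup.mem_centralizer_iff] at hc
        exact (hc w hw).symm
      have h1ne : θ₁ 1 ≠ 0 := by
        obtain ⟨n, hn, hn1, -⟩ := hpos
        rw [hn1]
        exact Nat.cast_ne_zero.2 hn.ne'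
      have hval : ∀ w ∈ D, w ∈ cz D → θ₁ (w * v) = θ₁ v := by
        intro w hw hwC
        have h3 := (hQ w hwC (hcen w hw) θ₁ hθ₁.1).1 v
        rw [hu w hw hwC, mul_comm (θ₁ 1)] at h3
        exact mul_right_cancel₀ h1ne h3
      rw [hgm, hval _ (D.pow_mem hD m) ((cz D).pow_mem huC m), ← hij, hval _ hD huC]
    · have hDm : u ^ m ∉ D := by
        intro h
        apply hD
        rw [← hl]
        exact D.pow_mem h l
      have e1 := hVN (u ^ m) ((cz D).pow_mem huC m) hum (fun h => hDm h.1) v (HCMT_mem _ _ _ hvC humv) hj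
      have e2 := hVN u huC hi (fun h => hD h.1) v (HCMT_mem _ _ _ hvC huv) hj
      rw [hgm, e1, ← hij, e2]
  · have hgm : g ^ m ∉ cz D := by
      intro h
      apply hg
      rw [← hk]
      exact (cz D).pow_mem h k
    rw [hout _ hgm, hout _ hg]

end Pool.Agent.GB
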